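import Pool.Agent.H963Z.RLin

set_option autoImplicit false

namespace Pool.Agent.Results.MP_94b3e1_an.ASeparable

open Topology

/-- On a separable Banach space the reiteratively recurrent vectors of a reiteratively recurrent
operator contain a dense subspace. -/
theorem result :
    ∀ (𝕂 : Type) [RCLike 𝕂] (X : Type) [NormedAddCommGroup X] [NormedSpace 𝕂 X]
      [CompleteSpace X] [TopologicalSpace.SeparableSpace X] (T : X →L[𝕂] X),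
      Dense {x : X | ∀ U ∈ 𝓝 x, ∃ δ : ℝ, 0 < δ ∧ ∀ N : ℕ, 1 ≤ N → ∃ m : ℕ,
          δ * (N : ℝ) ≤ (({n : ℕ | m ≤ n ∧ n < m + N ∧ (T ^ n) x ∈ U}).ncard : ℝ)} →
      ∃ M : Submodule 𝕂 X, Dense (M : Set X) ∧
        ∀ x ∈ M, ∀ U ∈ 𝓝 x, ∃ δ : ℝ, 0 < δ ∧ ∀ N : ℕ, 1 ≤ N → ∃ m : ℕ,
          δ * (N : ℝ) ≤ (({n : ℕ | m ≤ n ∧ n < m + N ∧ (T ^ n) x ∈ U}).ncard : ℝ) := by
  intro 𝕂 _ X _ _ _ _ T h
  simp only [H963Z.rr_iff'] at h ⊢
  exact H963Z.rrec_lineable T h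

end Pool.Agent.Results.MP_94b3e1_an.ASeparable
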